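import Pool.Agent.Y719.NG.TwInt

/-!
# Products of powers of moduli show that the representation of an eigenclass is of weight two

Let `K` be any number field of degree `d`, `θ` an eigenclass of weight 2 on `GL₂` over `K`, and `ρ` an
irreducible `p`-adic representation of `G_K` attached to `θ` (the dual of the representation of the
problem), for example for a CM field `K` the one of Harris, Lan, Taylor, Thorne and Scholze, about
which nothing else is assumed.  Let `W_j` be finitely many semisimple representations of weight at most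
`1`, for example `H¹` of abelian varieties `B_j` over `K`, and let `m_j` be integers of any sign.  If
for `0 ≤ i < d` the logarithm of `|L(θ ⊗ ψ^i, s)| / ∏_j |L(W_j ⊗ ψ^i, s)| ^ m_j` on the line
`Re s = 3/2` is concentrated, for example constant on a set of positive upper density, then `ρ` is a
subrepresentation of a `W_j` with `m_j > 0`.  For `W_j = H¹(B_j)` it is thus of weight two at all places
above `p`.  Neither the Ramanujan conjecture for `θ` nor a continuation of a twisted Euler product is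
assumed.
-/

set_option autoImplicit false

namespace Pool.Agent.Results.MP_976e2b_nt.ProductsOfModuli

open NumberField IsDedekindDomain MeasureTheory Filter Topology Polynomial

section
variable {K : Type} [Field K] [NumberField K] {p : ℕ} [Fact p.Prime] {n : ℕ}

/-- `g` is a Frobenius element at `v`: for some maximal ideal `Q` above `v` of the ring of all
algebraic integers, `g x ≡ x ^ N(v)` modulo `Q` for all `x`. -/
def Frobenius (v : HeightOneSpectrum (𝓞 K)) (g : Gal(AlgebraicClosure K/K)) : Prop :=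
  ∃ Q : Ideal (𝓞 (AlgebraicClosure K)), Q.IsMaximal ∧
    Q.comap (algebraMap (𝓞 K) (𝓞 (AlgebraicClosure K))) = v.asIdeal ∧
    ∀ x : 𝓞 (AlgebraicClosure K), g • x - x ^ Ideal.absNorm v.asIdeal ∈ Q

/-- `g` lies in an inertia group at `v`: for some maximal ideal `Q` above `v` of the ring of all
algebraic integers, `g x ≡ x` modulo `Q` for all `x`. -/
def Inertia (v : HeightOneSpectrum (𝓞 K)) (g : Gal(AlgebraicClosure K/K)) : Prop :=
  ∃ Q : Ideal (𝓞 (AlgebraicClosure K)), Q.IsMaximal ∧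
    Q.comap (algebraMap (𝓞 K) (𝓞 (AlgebraicClosure K))) = v.asIdeal ∧
    ∀ x : 𝓞 (AlgebraicClosure K), g • x - x ∈ Q

/-- The matrix of `g`. -/
noncomputable def matrix (ρ : Gal(AlgebraicClosure K/K) →* GL (Fin n) (PadicAlgCl p))
    (g : Gal(AlgebraicClosure K/K)) : Matrix (Fin n) (Fin n) (PadicAlgCl p) :=
  (ρ g : GL (Fin n) (PadicAlgCl p))

/-- `W` is a stable subspace. -/
def Stable (ρ : Gal(AlgebraicClosure K/K) →* GL (Fin n) (PadicAlgCl p))
    (W : Submodule (PadicAlgCl p) (Fin n → PadicAlgCl p)) : Prop :=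
  ∀ g, ∀ x ∈ W, (matrix ρ g).mulVec x ∈ W

/-- `ρ` is irreducible. -/
def Irreducible (ρ : Gal(AlgebraicClosure K/K) →* GL (Fin n) (PadicAlgCl p)) : Prop :=
  0 < n ∧ ∀ W, Stable ρ W → W = ⊥ ∨ W = ⊤

/-- `ρ` is semisimple: every stable subspace has a stable complement. -/
def Semisimple (ρ : Gal(AlgebraicClosure K/K) →* GL (Fin n) (PadicAlgCl p)) : Prop :=
  ∀ W, Stable ρ W → ∃ W', Stable ρ W' ∧ IsCompl W W'

/-- `v` lies above a prime number in `S`. -/
def Bad (S : Finset ℕ) (v : HeightOneSpectrum (𝓞 K)) : Prop :=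
  ∃ q ∈ S, (q : 𝓞 K) ∈ v.asIdeal

/-- `P` is the family of Euler factors of `ρ` away from `S`, and `ρ` has weights at most `1`: `P_v` is
`1` for `v` above `S`; for all other `v` the representation is unramified and `P_v` is
`det(1 - X ρ(g⁻¹))` for the Frobenius elements `g` at `v`, with coefficients mapped to `ℂ` by `ι`;
the inverse roots of `P_v` are at most `Nv^{1/2}` in absolute value. -/
structure EulerFactors (S : Finset ℕ) (ι : PadicAlgCl p →+* ℂ)
    (ρ : Gal(AlgebraicClosure K/K) →* GL (Fin n) (PadicAlgCl p))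
    (P : HeightOneSpectrum (𝓞 K) → ℂ[X]) : Prop where
  bad : ∀ v, Bad S v → P v = 1
  unramified : ∀ v, ¬ Bad S v → ∀ g, Inertia v g → ρ g = 1
  frobenius : ∀ v, ¬ Bad S v → ∀ g, Frobenius v g → (matrix ρ g⁻¹).charpolyRev.map ι = P v
  weight : ∀ v, ∀ z : ℂ, (P v).eval z = 0 →
    (Ideal.absNorm v.asIdeal : ℝ) ^ (-(1 / 2) : ℝ) ≤ ‖z‖

variable (K) in
/-- The eigenvalues `a_v = θ(T_v)`, `b_v = θ(S_v)` of an eigenclass of weight 2 on `GL₂` over `K` at
the places not above `S`, with the analytic properties: a bound towards the Ramanujan conjecture,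
`|α_v|, |β_v| ≤ Nv^{1/2 + δ}` with `δ < 1/2` for the roots of `X² - a_v X + b_v Nv`, and the
Rankin-Selberg bound `∑_{Nv < x} |a_v|² Nv⁻¹ log Nv = O(x)`. -/
structure Eigenclass (S : Finset ℕ) where
  /-- the eigenvalue of `T_v` -/
  a : HeightOneSpectrum (𝓞 K) → ℂ
  /-- the eigenvalue of `S_v` -/
  b : HeightOneSpectrum (𝓞 K) → ℂ
  /-- the exponent in the bound towards the Ramanujan conjecture -/
  δ : ℝ
  δ_nonneg : 0 ≤ δ
  δ_lt : δ < 1 / 2
  bound : ∀ v, ¬ Bad S v → ∀ z : ℂ,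
    1 - a v * z + b v * (Ideal.absNorm v.asIdeal : ℂ) * z ^ 2 = 0 →
      (Ideal.absNorm v.asIdeal : ℝ) ^ (-(1 / 2 + δ)) ≤ ‖z‖
  /-- the constant in the Rankin-Selberg bound -/
  C₀ : ℝ
  meanSquare : ∀ (x : ℕ) (T : Finset (HeightOneSpectrum (𝓞 K))),
    (∀ v ∈ T, ¬ Bad S v ∧ Ideal.absNorm v.asIdeal < x) →
      ∑ v ∈ T, ‖a v‖ ^ 2 * (Ideal.absNorm v.asIdeal : ℝ) ^ (-1 : ℝ) *
        Real.log (Ideal.absNorm v.asIdeal) ≤ C₀ * x

open Classical in
/-- The Euler factors of `θ`: `1 - a_v X + b_v Nv X²`, and `1` for `v` above `S`. -/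
noncomputable def Eigenclass.poly {S : Finset ℕ} (θ : Eigenclass K S)
    (v : HeightOneSpectrum (𝓞 K)) : ℂ[X] :=
  if Bad S v then 1 else
    1 - C (θ.a v) * X + C (θ.b v * (Ideal.absNorm v.asIdeal : ℂ)) * X ^ 2

/-- `ρ` is attached to `θ` away from `S` (in the normalisation with geometric Frobenius elements). -/
def Attached {S : Finset ℕ} (θ : Eigenclass K S) (ι : PadicAlgCl p →+* ℂ)
    (ρ : Gal(AlgebraicClosure K/K) →* GL (Fin 2) (PadicAlgCl p)) : Prop :=
  ∀ v, ¬ Bad S v → (∀ g, Inertia v g → ρ g = 1) ∧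
    ∀ g, Frobenius v g → (matrix ρ g⁻¹).charpolyRev.map ι = θ.poly v

/-- `ψ` separates the places above each prime number, up to the degree `M`. -/
def Separates (ψ : HeightOneSpectrum (𝓞 K) → ℂ) (M : ℕ) : Prop :=
  ∀ v w : HeightOneSpectrum (𝓞 K), v ≠ w → ∀ k l : ℕ, 1 ≤ k → k ≤ M → 1 ≤ l → l ≤ M →
    Ideal.absNorm v.asIdeal ^ k = Ideal.absNorm w.asIdeal ^ l → ψ v ^ k ≠ ψ w ^ l

/-- The Euler product `∏_v P_v(ψ(v)^i Nv^{-s})⁻¹`: the product with the polynomials `P_v`, twisted by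
`ψ^i`. -/
noncomputable def L (P : HeightOneSpectrum (𝓞 K) → ℂ[X]) (ψ : HeightOneSpectrum (𝓞 K) → ℂ) (i : ℕ)
    (s : ℂ) : ℂ :=
  ∏' v : HeightOneSpectrum (𝓞 K),
    ((P v).eval (ψ v ^ i * (Ideal.absNorm v.asIdeal : ℂ) ^ (-s)))⁻¹

/-- The limit of `|L(3/2 + σ + iτ)|` for `σ → 0`, `σ > 0`. -/
noncomputable def edgeAbs (P : HeightOneSpectrum (𝓞 K) → ℂ[X])
    (ψ : HeightOneSpectrum (𝓞 K) → ℂ) (i : ℕ) (τ : ℝ) : ℝ :=
  limUnder (𝓝[>] (0 : ℝ)) fun σ : ℝ => ‖L P ψ i (3 / 2 + σ + τ * Complex.I)‖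

end

/-- The values of `f` are concentrated: there is `δ > 0` such that for every `ε > 0` there are
arbitrarily large `T` and a real number `x` with `|f - x| < ε` on a subset of `(0, T]` of measure at
least `δ T`. -/
def Concentrated (f : ℝ → ℝ) : Prop :=
  ∃ δ : ℝ, 0 < δ ∧ ∀ ε : ℝ, 0 < ε → ∃ᶠ T : ℝ in atTop, ∃ x : ℝ,
    ENNReal.ofReal (δ * T) ≤ volume {τ | τ ∈ Set.Ioc 0 T ∧ |f τ - x| < ε}

/-- **Products of powers of moduli.**  Let `K` be a number field, `θ` an eigenclass of weight 2, `ρ` an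
irreducible representation attached to `θ` away from `S`, `W_j` finitely many semisimple
representations with Euler factors `R_j` of weight at most `1` away from `S`, of dimensions `N_j`, and
`m_j` integers.  Let `M` be at least `2 + ∑_{m_j < 0} |m_j| N_j` and at least `∑_{m_j > 0} m_j N_j`.
There are functions `ψ` of absolute value `1` on the places which separate the places up to the
degree `M`.  Let `ψ` be such a function.  If for `0 ≤ i < [K : ℚ]` the logarithm of
`|L(θ ⊗ ψ^i, s)| / ∏_j |L(W_j ⊗ ψ^i, s)| ^ m_j` on the line `Re s = 3/2` is concentrated, then `ρ` is a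
subrepresentation of a `W_j` with `m_j > 0`: there is an injective matrix `H` with
`W_j(g) H = H ρ(g)` for all `g`. -/
theorem result (K : Type) [Field K] [NumberField K] (p : ℕ) [Fact p.Prime]
    (ι : PadicAlgCl p →+* ℂ) (S : Finset ℕ) (hS : ∀ q ∈ S, q.Prime) (θ : Eigenclass K S)
    (ρ : Gal(AlgebraicClosure K/K) →* GL (Fin 2) (PadicAlgCl p)) (hρ : Continuous ρ)
    (hirr : Irreducible ρ) (hθ : Attached θ ι ρ)
    (κ : Type) [Fintype κ] (N : κ → ℕ) (m : κ → ℤ)
    (W : ∀ j, Gal(AlgebraicClosure K/K) →* GL (Fin (N j)) (PadicAlgCl p))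
    (R : κ → HeightOneSpectrum (𝓞 K) → ℂ[X]) (hW : ∀ j, Continuous (W j))
    (hss : ∀ j, Semisimple (W j)) (hR : ∀ j, EulerFactors S ι (W j) (R j))
    (M : ℕ) (hM : 2 + ∑ j, (-m j).toNat * N j ≤ M) (hM' : ∑ j, (m j).toNat * N j ≤ M) :
    (∃ ψ : HeightOneSpectrum (𝓞 K) → ℂ, (∀ v, ‖ψ v‖ = 1) ∧ Separates ψ M) ∧
    ∀ ψ : HeightOneSpectrum (𝓞 K) → ℂ, (∀ v, ‖ψ v‖ ≤ 1) → Separates ψ M →
      (∀ i < Module.finrank ℚ K, Concentrated fun τ => Real.log (edgeAbs θ.poly ψ i τ) -
        ∑ j, m j * Real.log (edgeAbs (R j) ψ i τ)) →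
      ∃ j, 0 < m j ∧ ∃ H : Matrix (Fin (N j)) (Fin 2) (PadicAlgCl p),
        (∀ x, H.mulVec x = 0 → x = 0) ∧ ∀ g, matrix (W j) g * H = H * matrix ρ g := by
  classical
  refine ⟨?_, fun ψ hψ hsep hc => ?_⟩
  · obtain ⟨ψ, h1, h2⟩ := Pool.Agent.Y719.EL.N.exists_sep (K := K) M
    exact ⟨ψ, h1, fun v w hvw k l hk hkN hl hlN _ => h2 v w hvw k l hk hkN hl hlN⟩
  have hs := Pool.Agent.Y719.EL.N.sep_pow (N := M) (K := K) (ψ := ψ) hsep
  have hnorm : ∀ (i : Fin (Module.finrank ℚ K)) (v : HeightOneSpectrum (𝓞 K)),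
      ‖ψ v ^ (i : ℕ)‖ ≤ 1 := fun i v => by
    rw [norm_pow]
    exact pow_le_one₀ (norm_nonneg _) (hψ v)
  have he : ∀ (P : HeightOneSpectrum (𝓞 K) → ℂ[X]) (i : ℕ) (τ : ℝ),
      Pool.Agent.Y719.EL.N.eA 1 P (fun v => ψ v ^ i) τ = edgeAbs P ψ i τ := by
    intro P i τ
    have hL : ∀ s, Pool.Agent.Y719.EL.N.LS P (fun v => ψ v ^ i) s = L P ψ i s := fun s => rfl
    unfold Pool.Agent.Y719.EL.N.eA edgeAbs
    congr 1
    funext σ
    rw [hL]
    congr 2
    push_cast
    ring
  have hF : ∀ j, Pool.Agent.Y719.NG.Fac S 1 ι (W j) (R j) := fun j =>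
    ⟨(hR j).bad, fun v hv => ⟨(hR j).unramified v hv, (hR j).frobenius v hv⟩,
      (hR j).weight⟩
  -- the eigenclass
  have hform : Pool.Agent.Y719.EL.N.Typ (Pool.Agent.Y719.EL.N.nz 1 θ.poly) 2 := by
    have h1 : θ.poly = Pool.Agent.Y719.EL.N.FP (fun v => if Bad S v then 0 else θ.a v)
        (fun v => if Bad S v then 0 else θ.b v * (Ideal.absNorm v.asIdeal : ℂ)) := by
      funext v
      unfold Eigenclass.poly Pool.Agent.Y719.EL.N.FP
      by_cases h : Bad S v
      · simp only [if_pos h]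
        simp
      · simp only [if_neg h]
    rw [h1]
    refine Pool.Agent.Y719.EL.N.typ_form (C₀ := θ.C₀) θ.δ_lt (fun v z hz => ?_) fun x T hT => ?_
    · have hn : (1 : ℝ) ≤ Ideal.absNorm v.asIdeal := by
        exact_mod_cast Pool.Agent.Y774.MD.nm_pos v
      by_cases h : Bad S v
      · rw [if_pos h, if_pos h] at hz
        simp at hz
      · rw [if_neg h, if_neg h] at hz
        exact θ.bound v h z hz
    · have h2 := θ.meanSquare x (T.filter fun v => ¬ Bad S v) fun v hv =>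
        ⟨(Finset.mem_filter.1 hv).2, hT v (Finset.mem_filter.1 hv).1⟩
      refine le_trans (le_of_eq ?_) h2
      rw [Finset.sum_filter]
      refine Finset.sum_congr rfl fun v _ => ?_
      by_cases h : Bad S v
      · rw [if_pos h, if_neg (not_not.2 h)]
        simp
      · rw [if_neg h, if_pos h]
        rfl
  exact Pool.Agent.Y719.NG.twisted_moduli (w := 1) (m := m) (P₀ := θ.poly) (P := R) (N := N)
    (n := N) (R := W) hform (fun j => (hF j).typ) hnorm hM hM' hs
    (fun i => by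
      simp_rw [he]
      exact hc i i.2) ι hρ hirr hW hss
    (Pool.Agent.Y719.NG.bad K S) (Pool.Agent.Y719.NG.bad_finite hS)
    (fun v hv => hθ v hv) (fun j => (hF j).att)

end Pool.Agent.Results.MP_976e2b_nt.ProductsOfModuli
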